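import Pool.Agent.Q103.VR.Stm

/-!
# The moduli fibration with the map over its base
-/

set_option autoImplicit false

namespace Pool.Agent.U188.MF

open Finset Polynomial
open Pool.Agent.W602.GT
open Pool.Agent.W277.UH (ratP1)
open Pool.Agent.Q103.EC (ManyPrep prePer Isotrivial)
open Pool.Agent.Q103.VR

/-- the moduli fibration is unique -/
theorem unique {k K : Type} [Field k] [Field K] [Algebra k K] {d : ℕ} {p q : K[X]}
    {E E' : IntermediateField k K} (h : ModuliFibration d p q E) (h' : ModuliFibration d p q E') :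
    E = E' :=
  le_antisymm (fun y hy => h'.closed y (h.least E' h'.defined y hy))
    (fun y hy => h.closed y (h'.least E h.defined y hy))

/-- the moduli fibration and the map over its base -/
theorem exists_fib {k K : Type} [Field k] [CharZero k] [Field K] [Algebra k K] {d B : ℕ}
    (hd : 2 ≤ d) (hB : 3 ≤ B) {p q : K[X]} (hco : IsCoprime p q)
    (hmax : max p.natDegree q.natDegree = d) (hmany : (B : ℕ∞) ≤ (prePer d p q).encard) :
    ∃ (E : IntermediateField k K) (p' q' : E[X]) (a b c e : K), ModuliFibration d p q E ∧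
      ManyPrep k d B p' q' ∧ a * e - b * c ≠ 0 ∧
      ∀ y, ratP1 (C a * X + C b) (C c * X + C e) 1 (ratP1 p q d y) =
        ratP1 (p'.map (algebraMap E K)) (q'.map (algebraMap E K)) d
          (ratP1 (C a * X + C b) (C c * X + C e) 1 y) := by
  obtain ⟨E, p', q', a, b, c, e, hcl, hdet, hconj, hpts, hmp, hmin⟩ :=
    moduli (k := k) hd hB hco hmax hmany
  have hc : ∀ y, ratP1 (C a * X + C b) (C c * X + C e) 1 (ratP1 p q d y) =
      ratP1 (p'.map (algebraMap E K)) (q'.map (algebraMap E K)) d
        (ratP1 (C a * X + C b) (C c * X + C e) 1 y) := by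
    intro y
    have h1 := hconj K (RingHom.id K) y
    simp only [RingHom.id_apply, Polynomial.map_id] at h1
    exact h1
  refine ⟨E, p', q', a, b, c, e, ⟨hcl, ?_, ?_, hmin⟩, hmp, hdet, hc⟩
  · set φ := algebraMap K (AlgebraicClosure K) with hφ
    refine ⟨(p'.map (algebraMap E K)).map φ, (q'.map (algebraMap E K)).map φ, φ a, φ b, φ c, φ e,
      ?_, ?_, ?_, fun i => ?_, hconj _ φ⟩
    · rw [← map_mul, ← map_mul, ← map_sub]
      exact (_root_.map_ne_zero φ).2 hdet
    · exact (hmp.coprime.map (mapRingHom (algebraMap E K))).map (mapRingHom φ)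
    · rw [natDegree_map, natDegree_map, natDegree_map, natDegree_map, hmp.deg]
    · rw [coeff_map, coeff_map, coeff_map, coeff_map]
      exact ⟨isAlgebraic_algebraMap (A := AlgebraicClosure K) (p'.coeff i),
        isAlgebraic_algebraMap (A := AlgebraicClosure K) (q'.coeff i)⟩
  · refine ⟨p', q', a, b, c, e, hdet, hmp.coprime, hmp.deg, hc, fun z hz => ?_⟩
    obtain ⟨y, -, hy⟩ := hpts z hz
    exact ⟨y, hy⟩

end Pool.Agent.U188.MF
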