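import Pool.Agent.U188.MF.Sub
import Pool.Agent.U188.MF.Fib
import Pool.Agent.Q103.EC.Hyp

/-!
# Special subvarieties and entire curves lie in the fibres of the moduli fibration
-/

set_option autoImplicit false

namespace Pool.Agent.U188.MF

open Polynomial
open Pool.Agent.W602.GT
open Pool.Agent.W277.UH (ratP1)
open Pool.Agent.TH466.QG (SubOf)
open Pool.Agent.Q103.EC (ManyPrep prePer Isotrivial HypOff)
open Pool.Agent.Q103.VR

/-- The forms `f i` give a meromorphic map from `ℂ ^ g` to the projective variety with the generic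
point `x` (constant maps are allowed). -/
structure Mero {M : ℕ} {K : Type} [Field K] [Algebra ℂ K] (x : Fin (M + 1) → K) {g : ℕ}
    (f : Fin (M + 1) → (Fin g → ℂ) → ℂ) : Prop where
  hol : ∀ i, Differentiable ℂ (f i)
  mem : ∀ G : MvPolynomial (Fin (M + 1)) ℂ, IsForm G → val x G = 0 →
    ∀ t, MvPolynomial.eval (fun i => f i t) G = 0

/-- The rational map given by the forms `c` contracts the meromorphic images of the spaces `ℂ ^ g`
and the special subvarieties which are not contained in the zero set of `R`. -/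
structure Contracts {M r : ℕ} {K : Type} [Field K] [Algebra ℂ K] (x : Fin (M + 1) → K)
    (c : Fin (r + 1) → MvPolynomial (Fin (M + 1)) ℂ) (R : MvPolynomial (Fin (M + 1)) ℂ) : Prop where
  form : IsForm R
  ne : val x R ≠ 0
  mero : ∀ (g : ℕ) (f : Fin (M + 1) → (Fin g → ℂ) → ℂ), Mero x f →
    (∃ t, MvPolynomial.eval (fun i => f i t) R ≠ 0) → ∀ j, ∃ a : ℂ, ∀ t,
      MvPolynomial.eval (fun i => f i t) (c j) = a * MvPolynomial.eval (fun i => f i t) (c 0)
  special : ∀ (F : Type) [Field F] [Algebra ℂ F] (w : ℕ) (z : Fin (M + 1) → F), SubOf ℂ x z →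
    Algebra.trdeg ℂ F = w → val z R ≠ 0 → Special ℂ F w (fun _ => False) →
      ∀ j, ∃ a : ℂ, val z (c j) = algebraMap ℂ F a * val z (c 0)

section

variable {K : Type} [Field K] [Algebra ℂ K] {M : ℕ} {x : Fin (M + 1) → K}

theorem eval_eq_val (z : Fin (M + 1) → ℂ) (G : MvPolynomial (Fin (M + 1)) ℂ) :
    val z G = MvPolynomial.eval z G := by
  unfold val
  rw [MvPolynomial.aeval_def, MvPolynomial.eval, Algebra.algebraMap_self]
  rfl

theorem form_sub {d : ℕ} {G G0 : MvPolynomial (Fin (M + 1)) ℂ} (hG : G.IsHomogeneous d)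
    (hG0 : G0.IsHomogeneous d) (a : ℂ) : (G - MvPolynomial.C a * G0).IsHomogeneous d := by
  refine hG.sub ?_
  have h1 := (MvPolynomial.isHomogeneous_C (Fin (M + 1)) a).mul hG0
  rwa [zero_add] at h1

theorem val_C (F : Type) [Field F] [Algebra ℂ F] (z : Fin (M + 1) → F) (a : ℂ) :
    val z (MvPolynomial.C a) = algebraMap ℂ F a := by
  unfold val
  rw [MvPolynomial.aeval_C]

/-- the contraction, if the base is hyperbolic -/
theorem contracts_of_hyp (hgen : coords ℂ x = ⊤) {E : IntermediateField ℂ K}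
    (hE : ∀ (N : ℕ) (y : Fin (N + 1) → E), y ≠ 0 → coords ℂ y = ⊤ → ∃ R, HypOff y R)
    {r e : ℕ} {c : Fin (r + 1) → MvPolynomial (Fin (M + 1)) ℂ} (hc : ∀ j, (c j).IsHomogeneous e)
    (h0 : val x (c 0) ≠ 0) (hcE : ∀ j, val x (c j) / val x (c 0) ∈ E) : ∃ R, Contracts x c R := by
  classical
  obtain ⟨N, d, b, y, hM, hy⟩ := exists_model hgen E
    (Finset.univ.image fun j => val x (c j) / val x (c 0)) (by
      intro s hs
      obtain ⟨j, -, rfl⟩ := Finset.mem_image.1 hs
      exact hcE j)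
  have hy0 : y ≠ 0 := by
    intro h1
    have h2 := hM.zero
    rw [h1] at h2
    exact zero_ne_one h2
  obtain ⟨R', hR'⟩ := hE N y hy0 hM.gen
  have hyj : ∀ j, ∃ i, (y i : K) = val x (c j) / val x (c 0) := fun j =>
    hy _ (Finset.mem_image_of_mem _ (Finset.mem_univ j))
  refine ⟨comp b R' * b 0 * c 0, ?_, ?_, ?_, ?_⟩
  · obtain ⟨m, hm⟩ := hR'.form
    exact ⟨_, ((comp_hom hM.hom hm).mul (hM.hom 0)).mul (hc 0)⟩
  · rw [val_mul, val_mul]
    exact mul_ne_zero (mul_ne_zero (hM.ne_comp hR'.form hR'.ne) hM.ne) h0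
  · intro g f hf ⟨t0, ht0⟩ j
    obtain ⟨i, hi⟩ := hyj j
    exact mero_const hM hR'.mero (hc j) (hc 0) h0 hi hf.hol hf.mem ht0
  · intro F _ _ w z hz htr hne hS j
    rw [val_mul, val_mul] at hne
    obtain ⟨i, hi⟩ := hyj j
    obtain ⟨a, ha⟩ := sub_special hM hR'.form hR'.sub hz htr
      (left_ne_zero_of_mul (left_ne_zero_of_mul hne))
      (right_ne_zero_of_mul (left_ne_zero_of_mul hne)) hS i
    exact ⟨a, sub_const hM hz (right_ne_zero_of_mul (left_ne_zero_of_mul hne)) ha (hc j) (hc 0) h0 hi⟩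

/-- constant functions -/
theorem contracts_of_const {r e : ℕ} {c : Fin (r + 1) → MvPolynomial (Fin (M + 1)) ℂ}
    (hc : ∀ j, (c j).IsHomogeneous e) (h0 : val x (c 0) ≠ 0)
    (hcE : ∀ j, ∃ a : ℂ, val x (c j) / val x (c 0) = algebraMap ℂ K a) : ∃ R, Contracts x c R := by
  have hrel : ∀ j, ∃ a : ℂ, IsForm (c j - MvPolynomial.C a * c 0) ∧
      val x (c j - MvPolynomial.C a * c 0) = 0 := by
    intro j
    obtain ⟨a, ha⟩ := hcE j
    refine ⟨a, ⟨e, form_sub (hc j) (hc 0) a⟩, ?_⟩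
    rw [div_eq_iff h0] at ha
    rw [val_sub, val_mul, val_C, ha, sub_self]
  refine ⟨1, ⟨0, MvPolynomial.isHomogeneous_one _ _⟩, ?_, ?_, ?_⟩
  · unfold val
    rw [map_one]
    exact one_ne_zero
  · intro g f hf _ j
    obtain ⟨a, h1, h2⟩ := hrel j
    refine ⟨a, fun t => ?_⟩
    have h3 := hf.mem _ h1 h2 t
    rw [map_sub, map_mul, MvPolynomial.eval_C] at h3
    exact sub_eq_zero.1 h3
  · intro F _ _ w z hz _ _ _ j
    obtain ⟨a, h1, h2⟩ := hrel j
    refine ⟨a, ?_⟩
    have h3 := hz.spec _ h1 h2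
    rw [val_sub, val_mul, val_C] at h3
    exact sub_eq_zero.1 h3

/-- a field of functions whose models are contracted is the field of constants, if the variety is
special or has a Zariski dense entire curve -/
theorem const_of_dense (hx : x ≠ 0) (hgen : coords ℂ x = ⊤) {w : ℕ} (htr : Algebra.trdeg ℂ K = w)
    {E : IntermediateField ℂ K}
    (hE : ∀ (r e : ℕ) (c : Fin (r + 1) → MvPolynomial (Fin (M + 1)) ℂ), (∀ j, (c j).IsHomogeneous e) →
      val x (c 0) ≠ 0 → (∀ j, val x (c j) / val x (c 0) ∈ E) → ∃ R, Contracts x c R)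
    (h : Special ℂ K w (fun _ => False) ∨ BrodySpecial ∅ x) :
    ∀ s ∈ E, ∃ a : ℂ, s = algebraMap ℂ K a := by
  obtain ⟨N, d, b, y, hM, -⟩ := exists_model hgen E ∅ (by simp)
  obtain ⟨R, hR⟩ := hE N d b hM.hom hM.ne fun j => by
    rw [← hM.eq j]
    exact (y j).2
  refine bot_of_const hM.gen fun i => ?_
  rw [hM.eq i]
  rcases h with h | ⟨f, hf, hmem, hdense⟩
  · obtain ⟨a, ha⟩ := hR.special K w x (subOf_self hx hgen) htr hR.ne h i
    exact ⟨a, by rw [ha, mul_div_cancel_right₀ _ hM.ne]⟩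
  · have hmero : Mero x (fun i (t : Fin 1 → ℂ) => f (t 0) i) := by
      refine ⟨fun i => ?_, fun G hG hxG t => ?_⟩
      · have h1 : Differentiable ℂ fun z => f z i := fun z => (differentiableAt_pi.1 (hf z)) i
        exact h1.comp (differentiable_apply 0)
      · have h1 := (hmem (t 0)).1.2 G hG hxG
        rw [eval_eq_val] at h1
        exact h1
    have hex : ∃ t : Fin 1 → ℂ, MvPolynomial.eval (fun i => f (t 0) i) R ≠ 0 := by
      by_contra hcon
      push Not at hcon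
      refine hR.ne (hdense R hR.form fun z => ?_)
      rw [eval_eq_val]
      exact hcon fun _ => z
    obtain ⟨a, ha⟩ := hR.mero 1 _ hmero hex i
    refine ⟨a, ?_⟩
    have h1 : val x (b i - MvPolynomial.C a * b 0) = 0 := by
      refine hdense _ ⟨d, form_sub (hM.hom i) (hM.hom 0) a⟩ fun z => ?_
      rw [eval_eq_val, map_sub, map_mul, MvPolynomial.eval_C]
      exact sub_eq_zero.2 (ha fun _ => z)
    rw [val_sub, val_mul, val_C] at h1
    rw [sub_eq_zero.1 h1, mul_div_cancel_right₀ _ hM.ne]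

end

/-- **The moduli fibration contracts special subvarieties and entire curves.** -/
theorem main (d : ℕ) (hd : 2 ≤ d) : ∃ B : ℕ, ∀ (K : Type) [Field K] [Algebra ℂ K] (M : ℕ)
    (x : Fin (M + 1) → K), x ≠ 0 → coords ℂ x = ⊤ → ∀ w : ℕ, Algebra.trdeg ℂ K = w →
    ∀ p q : K[X], IsCoprime p q → max p.natDegree q.natDegree = d →
    (B : ℕ∞) ≤ (prePer d p q).encard →
    ∃ (E : IntermediateField ℂ K) (v : ℕ), ModuliFibration d p q E ∧ v ≤ w ∧
      Algebra.trdeg ℂ E = v ∧ IsVariation ℂ d p q v ∧ (1 ≤ v → GeneralType ℂ E v) ∧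
      (∀ (r e : ℕ) (c : Fin (r + 1) → MvPolynomial (Fin (M + 1)) ℂ), (∀ j, (c j).IsHomogeneous e) →
        val x (c 0) ≠ 0 → (∀ j, val x (c j) / val x (c 0) ∈ E) → ∃ R, Contracts x c R) ∧
      (Special ℂ K w (fun _ => False) ∨ BrodySpecial ∅ x → Isotrivial ℂ d p q) := by
  obtain ⟨B1, hB1⟩ := Pool.Agent.Q103.EC.main d hd
  refine ⟨max B1 3, ?_⟩
  intro K _ _ M x hx hgen w hw p q hco hmax hmany
  have : CharZero K := charZero_of_injective_algebraMap (algebraMap ℂ K).injective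
  obtain ⟨E, p', q', a, b, c, e, hE, hmp, -⟩ := exists_fib (k := ℂ) hd (le_max_right B1 3) hco hmax
    hmany
  obtain ⟨v, hv, htr⟩ := exists_dim E hw
  have hmp' : ManyPrep ℂ d B1 p' q' := ⟨hmp.coprime, hmp.deg, hmp.maxVar,
    le_trans (by exact_mod_cast le_max_left B1 3) hmp.many⟩
  have hcon : ∀ (r e : ℕ) (c : Fin (r + 1) → MvPolynomial (Fin (M + 1)) ℂ),
      (∀ j, (c j).IsHomogeneous e) → val x (c 0) ≠ 0 →
      (∀ j, val x (c j) / val x (c 0) ∈ E) → ∃ R, Contracts x c R := by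
    intro r e c hc h0 hcE
    rcases Nat.eq_zero_or_pos v with h1 | h1
    · subst h1
      exact contracts_of_const hc h0 fun j => const_of_trdeg htr (hcE j)
    · obtain ⟨-, h2⟩ := hB1 E p' q' hmp' v h1 htr
      exact contracts_of_hyp hgen h2 hc h0 hcE
  refine ⟨E, v, hE, hv, htr, hE.variation htr, fun h1 => (hB1 E p' q' hmp' v h1 htr).1, hcon,
    fun h => ?_⟩
  rw [hE.isotrivial]
  intro y hy
  obtain ⟨a, ha⟩ := const_of_dense hx hgen hw hcon h y hy
  rw [ha]
  exact isAlgebraic_algebraMap a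

end Pool.Agent.U188.MF
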