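import Pool.Agent.W602.GT.SpDefs
import Pool.Agent.N664.JS.SubFG0

/-!
# Rational functions on a projective variety as quotients of forms
-/

set_option autoImplicit false

namespace Pool.Agent.U188.MF

open Pool.Agent.W602.GT

variable {k K : Type} [Field k] [Field K] [Algebra k K] {M : ℕ} {x : Fin (M + 1) → K}

theorem val_mul (P Q : MvPolynomial (Fin (M + 1)) k) : val x (P * Q) = val x P * val x Q := by
  unfold val
  exact map_mul _ _ _

theorem val_add (P Q : MvPolynomial (Fin (M + 1)) k) : val x (P + Q) = val x P + val x Q := by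
  unfold val
  exact map_add _ _ _

theorem val_sub (P Q : MvPolynomial (Fin (M + 1)) k) : val x (P - Q) = val x P - val x Q := by
  unfold val
  exact map_sub _ _ _

/-- every rational function on the variety is a quotient of two forms of the same degree -/
theorem exists_quot {s : K} (hs : s ∈ coords k x) :
    ∃ (e : ℕ) (G H : MvPolynomial (Fin (M + 1)) k), G.IsHomogeneous e ∧ H.IsHomogeneous e ∧
      val x H ≠ 0 ∧ s = val x G / val x H := by
  unfold coords at hs
  induction hs using IntermediateField.adjoin_induction with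
  | mem z hz =>
    obtain ⟨i, j, hj, rfl⟩ := hz
    refine ⟨1, MvPolynomial.X i, MvPolynomial.X j, MvPolynomial.isHomogeneous_X _ _,
      MvPolynomial.isHomogeneous_X _ _, ?_, ?_⟩
    · unfold val
      rw [MvPolynomial.aeval_X]
      exact hj
    · unfold val
      rw [MvPolynomial.aeval_X, MvPolynomial.aeval_X]
  | algebraMap c =>
    refine ⟨0, MvPolynomial.C c, 1, MvPolynomial.isHomogeneous_C _ _,
      MvPolynomial.isHomogeneous_one _ _, ?_, ?_⟩
    · unfold val
      rw [map_one]
      exact one_ne_zero
    · unfold val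
      rw [map_one, div_one, MvPolynomial.aeval_C]
  | add a b _ _ ha hb =>
    obtain ⟨e, G, H, hG, hH, h0, rfl⟩ := ha
    obtain ⟨e', G', H', hG', hH', h0', rfl⟩ := hb
    refine ⟨e + e', G * H' + H * G', H * H', (hG.mul hH').add (hH.mul hG'), hH.mul hH', ?_, ?_⟩
    · rw [val_mul]
      exact mul_ne_zero h0 h0'
    · rw [val_mul, val_add, val_mul, val_mul, div_add_div _ _ h0 h0']
  | inv a _ ha =>
    obtain ⟨e, G, H, hG, hH, h0, rfl⟩ := ha
    by_cases hG0 : val x G = 0
    · refine ⟨e, G, H, hG, hH, h0, ?_⟩
      rw [hG0, zero_div, inv_zero]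
    · refine ⟨e, H, G, hH, hG, hG0, ?_⟩
      rw [inv_div]
  | mul a b _ _ ha hb =>
    obtain ⟨e, G, H, hG, hH, h0, rfl⟩ := ha
    obtain ⟨e', G', H', hG', hH', h0', rfl⟩ := hb
    refine ⟨e + e', G * G', H * H', hG.mul hG', hH.mul hH', ?_, ?_⟩
    · rw [val_mul]
      exact mul_ne_zero h0 h0'
    · rw [val_mul, val_mul, div_mul_div_comm]

/-- finitely many rational functions have a common denominator -/
theorem exists_common (S : Finset K) (hS : ∀ s ∈ S, s ∈ coords k x) :
    ∃ (e : ℕ) (H : MvPolynomial (Fin (M + 1)) k), H.IsHomogeneous e ∧ val x H ≠ 0 ∧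
      ∀ s ∈ S, ∃ G : MvPolynomial (Fin (M + 1)) k, G.IsHomogeneous e ∧ s = val x G / val x H := by
  classical
  induction S using Finset.induction_on with
  | empty =>
    refine ⟨0, 1, MvPolynomial.isHomogeneous_one _ _, ?_, fun s hs => ?_⟩
    · unfold val
      rw [map_one]
      exact one_ne_zero
    · simp at hs
  | insert a T ha ih =>
    obtain ⟨e, H, hH, h0, hT⟩ := ih fun s hs => hS s (Finset.mem_insert_of_mem hs)
    obtain ⟨e', G', H', hG', hH', h0', ha'⟩ := exists_quot (hS a (Finset.mem_insert_self a T))
    refine ⟨e + e', H * H', hH.mul hH', ?_, fun s hs => ?_⟩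
    · rw [val_mul]
      exact mul_ne_zero h0 h0'
    · rcases Finset.mem_insert.1 hs with rfl | hs
      · refine ⟨H * G', hH.mul hG', ?_⟩
        rw [val_mul, val_mul, mul_div_mul_left _ _ h0]
        exact ha'
      · obtain ⟨G, hG, hs'⟩ := hT s hs
        refine ⟨G * H', hG.mul hH', ?_⟩
        rw [val_mul, val_mul, mul_div_mul_right _ _ h0']
        exact hs'

/-- A rational map from the variety with the generic point `x` to a projective space: forms
`c 0, …, c N` of the same degree `e`, such that `c 0` does not vanish at `x`, with the generic point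
`y` of the image, `y 0 = 1`, in the field `E`, and `E` is generated by `y`. -/
structure Model (x : Fin (M + 1) → K) (E : IntermediateField k K) {N : ℕ}
    (c : Fin (N + 1) → MvPolynomial (Fin (M + 1)) k) (y : Fin (N + 1) → E) (e : ℕ) : Prop where
  hom : ∀ i, (c i).IsHomogeneous e
  ne : val x (c 0) ≠ 0
  eq : ∀ i, (y i : K) = val x (c i) / val x (c 0)
  gen : coords k y = ⊤

/-- the coordinate `0` -/
theorem Model.zero {E : IntermediateField k K} {N : ℕ}
    {c : Fin (N + 1) → MvPolynomial (Fin (M + 1)) k} {y : Fin (N + 1) → E} {e : ℕ}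
    (h : Model x E c y e) : y 0 = 1 := by
  apply Subtype.ext
  rw [h.eq 0]
  exact div_self h.ne

/-- a field of rational functions on the variety is the function field of the image of the variety under
a rational map; the map can be chosen such that finitely many given functions in the field are
coordinates -/
theorem exists_model (hgen : coords k x = ⊤) (E : IntermediateField k K) (S : Finset K)
    (hS : ∀ s ∈ S, s ∈ E) :
    ∃ (N e : ℕ) (c : Fin (N + 1) → MvPolynomial (Fin (M + 1)) k) (y : Fin (N + 1) → E),
      Model x E c y e ∧ ∀ s ∈ S, ∃ i, (y i : K) = s := by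
  classical
  have hess : Algebra.EssFiniteType k K := by
    rw [← IntermediateField.fg_top_iff]
    unfold coords at hgen
    rw [← hgen]
    refine IntermediateField.fg_adjoin_of_finite ?_
    refine Set.Finite.subset (Set.finite_range fun ij : Fin (M + 1) × Fin (M + 1) =>
      x ij.1 / x ij.2) ?_
    rintro z ⟨i, j, -, rfl⟩
    exact ⟨(i, j), rfl⟩
  obtain ⟨T, hT⟩ := Pool.Agent.N664.JS.fg_sub E
  have hTE : ∀ s ∈ T, s ∈ E := fun s hs => by
    rw [← hT]
    exact IntermediateField.subset_adjoin k _ hs
  obtain ⟨e, H, hH, h0, hU⟩ := exists_common (k := k) (x := x) (S ∪ T) fun s _ => by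
    rw [hgen]
    exact IntermediateField.mem_top
  choose! G hG hGs using hU
  set U : Finset K := S ∪ T with hUdef
  have hUE : ∀ s ∈ U, s ∈ E := fun s hs => by
    rcases Finset.mem_union.1 hs with hs | hs
    · exact hS s hs
    · exact hTE s hs
  let en := U.equivFin
  let c : Fin (U.card + 1) → MvPolynomial (Fin (M + 1)) k :=
    Fin.cons H fun i => G (en.symm i)
  let y : Fin (U.card + 1) → E := Fin.cons 1 fun i => ⟨en.symm i, hUE _ (en.symm i).2⟩
  have hy : ∀ s ∈ U, ∃ i, (y i : K) = s := fun s hs => by
    refine ⟨(en ⟨s, hs⟩).succ, ?_⟩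
    simp [y]
  refine ⟨U.card, e, c, y, ⟨?_, ?_, ?_, ?_⟩, fun s hs => hy s (Finset.mem_union_left _ hs)⟩
  · intro i
    refine Fin.cases ?_ (fun i => ?_) i
    · exact hH
    · exact hG _ (en.symm i).2
  · exact h0
  · intro i
    refine Fin.cases ?_ (fun i => ?_) i
    · simp only [y, c, Fin.cons_zero]
      rw [div_self h0]
      rfl
    · simp only [y, c, Fin.cons_zero, Fin.cons_succ]
      exact hGs _ (en.symm i).2
  · apply IntermediateField.lift_injective E
    rw [IntermediateField.lift_top]
    unfold coords
    rw [IntermediateField.lift_adjoin]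
    apply le_antisymm
    · rw [IntermediateField.adjoin_le_iff]
      rintro _ ⟨z, -, rfl⟩
      exact z.2
    · have h1 : E = IntermediateField.adjoin k (T : Set K) := hT.symm
      conv_lhs => rw [h1]
      rw [IntermediateField.adjoin_le_iff]
      intro s hs
      obtain ⟨i, hi⟩ := hy s (Finset.mem_union_right _ hs)
      apply IntermediateField.subset_adjoin
      refine ⟨y i, ⟨i, 0, ?_, ?_⟩, hi⟩
      · simp [y]
      · simp [y]

end Pool.Agent.U188.MF
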