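import Pool.Agent.U188.MF.Ana
import Pool.Agent.Q103.RP.Hyp

/-!
# The moduli fibration over a number field: points of bounded degree, entire curves and special
subvarieties
-/

set_option autoImplicit false

namespace Pool.Agent.U188.MF

open Polynomial Height
open Pool.Agent.W602.GT
open Pool.Agent.W277.UH (ratP1)
open Pool.Agent.TH466.QG (SubOf)
open Pool.Agent.Q41.GT (crs)
open Pool.Agent.Q103.EC (ManyPrep prePer Isotrivial HypOff hyp_crs exists_stab isForm_mul)
open Pool.Agent.Q103.VR
open Pool.Agent.Q103.RP (cfv IsPt lowVals alg_up crs_image stab_image manyPrep_mono sparse_fib)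

/-- hyperbolicity of the complex base of the moduli fibration, for all projective models -/
theorem hyp_base (d : ℕ) (hd : 2 ≤ d) : ∃ B : ℕ, ∀ (k : Type) [Field k] [CharZero k] [Algebra k ℂ]
    (E : Type) [Field E] [Algebra k E] (p q : E[X]), ManyPrep k d B p q →
    ∀ (L : Type) [Field L] [Algebra ℂ L] [Algebra E L] [Algebra k L] [IsScalarTower k E L]
      [IsScalarTower k ℂ L], IntermediateField.adjoin ℂ (Set.range (algebraMap E L)) = ⊤ →
      ∀ (N : ℕ) (y : Fin (N + 1) → L), y ≠ 0 → coords ℂ y = ⊤ → ∃ R, HypOff y R := by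
  classical
  obtain ⟨B, hB⟩ := hyp_crs d hd
  refine ⟨max B (3 * d + 7), ?_⟩
  intro k _ _ _ E _ _ p q h L _ _ _ _ _ _ hgen N y hy hygen
  obtain ⟨p', q', P', hp', hq', hpq', hst, hc, halg⟩ := exists_stab hd (le_max_right _ _) h
  have hinj := (algebraMap E L).injective
  have halg' : Algebra.IsAlgebraic
      (IntermediateField.adjoin ℂ (crs (P'.image (algebraMap E L)))) L := by
    set F := IntermediateField.adjoin ℂ (crs (P'.image (algebraMap E L))) with hF
    have h1 : IntermediateField.adjoin ℂ (Set.range (algebraMap E L)) ≤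
        (algebraicClosure F L).restrictScalars ℂ := by
      rw [IntermediateField.adjoin_le_iff]
      rintro _ ⟨z, rfl⟩
      exact mem_algebraicClosure_iff.2 (alg_up (crs_image P') (halg.isAlgebraic z))
    refine ⟨fun y => ?_⟩
    have h3 : y ∈ (algebraicClosure F L).restrictScalars ℂ := h1 (by rw [hgen]; trivial)
    exact mem_algebraicClosure_iff.1 h3
  obtain ⟨-, h2⟩ := hB L (p'.map (algebraMap E L)) (q'.map (algebraMap E L))
    (by rw [natDegree_map]; exact hp') (by rw [natDegree_map]; exact hq')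
    (hpq'.map (mapRingHom (algebraMap E L))) (P'.image (algebraMap E L)) (stab_image hst)
    (by rw [Finset.card_image_of_injective _ hinj]; exact le_trans (le_max_left _ _) hc) halg'
  exact h2 N y hy hygen

section

variable {k K : Type} [Field k] [Field K] [Algebra k K] {L : Type} [Field L] [Algebra K L]
  [Algebra ℂ L]

/-- the complex base -/
noncomputable def cbase (E : IntermediateField k K) (L : Type) [Field L] [Algebra K L]
    [Algebra ℂ L] : IntermediateField ℂ L :=
  IntermediateField.adjoin ℂ (Set.range fun e : E => algebraMap K L e)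

theorem mem_cbase {E : IntermediateField k K} {z : K} (hz : z ∈ E) :
    algebraMap K L z ∈ cbase E L :=
  IntermediateField.subset_adjoin ℂ _ ⟨⟨z, hz⟩, rfl⟩

/-- the embedding of the base -/
noncomputable def emb (E : IntermediateField k K) (L : Type) [Field L] [Algebra K L]
    [Algebra ℂ L] : E →+* cbase E L where
  toFun e := ⟨algebraMap K L e, mem_cbase e.2⟩
  map_one' := Subtype.ext (map_one _)
  map_mul' a b := Subtype.ext (map_mul (algebraMap K L) _ _)
  map_zero' := Subtype.ext (map_zero _)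
  map_add' a b := Subtype.ext (map_add (algebraMap K L) _ _)

theorem adjoin_emb (E : IntermediateField k K) :
    IntermediateField.adjoin ℂ (Set.range (emb E L)) = ⊤ := by
  apply IntermediateField.lift_injective (cbase E L)
  rw [IntermediateField.lift_adjoin, IntermediateField.lift_top]
  have h1 : (Subtype.val '' Set.range (emb E L) : Set L) =
      Set.range fun e : E => algebraMap K L e := by
    rw [← Set.range_comp]
    rfl
  rw [h1]
  rfl

variable [Algebra k ℂ] [Algebra k L] [IsScalarTower k K L] [IsScalarTower k ℂ L]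

/-- hyperbolicity of the complex base -/
theorem hyp_mid {d B : ℕ} (hB : ∀ (k : Type) [Field k] [CharZero k] [Algebra k ℂ]
    (E : Type) [Field E] [Algebra k E] (p q : E[X]), ManyPrep k d B p q →
    ∀ (L : Type) [Field L] [Algebra ℂ L] [Algebra E L] [Algebra k L] [IsScalarTower k E L]
      [IsScalarTower k ℂ L], IntermediateField.adjoin ℂ (Set.range (algebraMap E L)) = ⊤ →
      ∀ (N : ℕ) (y : Fin (N + 1) → L), y ≠ 0 → coords ℂ y = ⊤ → ∃ R, HypOff y R)
    [CharZero k] (E : IntermediateField k K) {p q : E[X]} (h : ManyPrep k d B p q) (N : ℕ)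
    (y : Fin (N + 1) → cbase E L) (hy : y ≠ 0) (hgen : coords ℂ y = ⊤) : ∃ R, HypOff y R := by
  let _ : Algebra E (cbase E L) := (emb E L).toAlgebra
  let _ : Algebra k (cbase E L) := (algebraMap ℂ (cbase E L)).comp (algebraMap k ℂ) |>.toAlgebra
  have i2 : IsScalarTower k ℂ (cbase E L) := IsScalarTower.of_algebraMap_eq fun c => rfl
  have i3 : IsScalarTower k E (cbase E L) := IsScalarTower.of_algebraMap_eq fun c => by
    apply Subtype.ext
    change algebraMap ℂ L (algebraMap k ℂ c) = algebraMap K L (algebraMap k K c)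
    rw [← IsScalarTower.algebraMap_apply k K L, ← IsScalarTower.algebraMap_apply k ℂ L]
  exact hB k E p q h (cbase E L) (adjoin_emb E) N y hy hgen

end

/-- a larger closed subset -/
theorem Contracts.mul {M r : ℕ} {L : Type} [Field L] [Algebra ℂ L] {x : Fin (M + 1) → L}
    {c : Fin (r + 1) → MvPolynomial (Fin (M + 1)) ℂ} {R S : MvPolynomial (Fin (M + 1)) ℂ}
    (h : Contracts x c R) (hS : IsForm S) (hx : val x S ≠ 0) : Contracts x c (R * S) := by
  refine ⟨isForm_mul h.form hS, ?_, ?_, ?_⟩
  · rw [val_mul]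
    exact mul_ne_zero h.ne hx
  · rintro g f hf ⟨t, ht⟩
    rw [map_mul] at ht
    exact h.mero g f hf ⟨t, left_ne_zero_of_mul ht⟩
  · intro F _ _ w z hz htr hR hsp
    rw [val_mul] at hR
    exact h.special F w z hz htr (left_ne_zero_of_mul hR) hsp

/-- The images of the points `a` of the projective variety over `k` with the generic point `x`, over
number fields `L` of degree at most `D` which contain `k`, under the rational map
`a ↦ (g 0 (a) : g 1 (a) : ...)`, as points of the complex projective space (by all embeddings of `L` in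
the complex numbers over `k`); only the points `a` which do not lie on the complex hypersurface `R = 0`
and have absolute height at most `T` are considered. -/
def imagePts (k : Type) [Field k] [Algebra k ℂ] {K : Type} [Field K] [Algebra k K] {M r : ℕ}
    (x : Fin (M + 1) → K) (R : MvPolynomial (Fin (M + 1)) ℂ)
    (g : Fin (r + 1) → MvPolynomial (Fin (M + 1)) k) (D : ℕ) (T : ℝ) :
    Set (Submodule ℂ (Fin (r + 1) → ℂ)) :=
  {P | ∃ (L : Type) (_ : Field L) (_ : NumberField L) (_ : Algebra k L) (σ : L →ₐ[k] ℂ)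
    (a : Fin (M + 1) → L), Module.finrank ℚ L ≤ D ∧ IsPt (k := k) x a ∧
      MvPolynomial.eval (fun i => σ (a i)) R ≠ 0 ∧
      Height.mulHeight a ≤ T ^ Module.finrank ℚ L ∧
      P = Submodule.span ℂ {fun i => σ (val a (g i))}}

theorem imagePts_sub (k : Type) [Field k] [Algebra k ℂ] {K : Type} [Field K] [Algebra k K] {M r : ℕ}
    (x : Fin (M + 1) → K) (R : MvPolynomial (Fin (M + 1)) ℂ) (S : MvPolynomial (Fin (M + 1)) k)
    (g : Fin (r + 1) → MvPolynomial (Fin (M + 1)) k) (D : ℕ) (T : ℝ) :
    imagePts k x (R * MvPolynomial.map (algebraMap k ℂ) S) g D T ⊆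
      lowVals k x S MvPolynomial.X g D T := by
  rintro P ⟨L, i1, i2, i3, σ, a, hL, ha, haR, hht, rfl⟩
  refine ⟨L, i1, i2, i3, σ, a, hL, ha, ?_, ?_, rfl⟩
  · intro h0
    rw [map_mul] at haR
    apply right_ne_zero_of_mul haR
    have h1 : σ (val a S) = MvPolynomial.eval (fun i => σ (a i))
        (MvPolynomial.map (algebraMap k ℂ) S) := by
      rw [MvPolynomial.eval_map, ← MvPolynomial.aeval_def]
      unfold val
      exact MvPolynomial.comp_aeval_apply (f := a) (φ := σ) S
    rw [← h1, h0, map_zero]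
  · have h1 : (fun s => val a (MvPolynomial.X s : MvPolynomial (Fin (M + 1)) k)) = a := by
      funext s
      unfold val
      rw [MvPolynomial.aeval_X]
    rw [h1]
    exact hht

/-- **One closed subset for the special subvarieties, the meromorphic images of `ℂ ^ g` and the points
of bounded degree.** -/
theorem num (d : ℕ) (hd : 2 ≤ d) : ∃ (B₀ : ℕ) (B : ℕ → ℝ → ℕ),
    ∀ (k : Type) [Field k] [NumberField k] [Algebra k ℂ] (K : Type) [Field K] [Algebra k K] (M : ℕ)
      (x : Fin (M + 1) → K), x ≠ 0 → coords k x = ⊤ → ∀ w : ℕ, Algebra.trdeg k K = w →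
      ∀ (n : ℕ) (p q : K[X]), B₀ ≤ n → IsCoprime p q → max p.natDegree q.natDegree = d →
      (n : ℕ∞) ≤ (prePer d p q).encard →
      ∃ (E : IntermediateField k K) (v : ℕ), ModuliFibration d p q E ∧ v ≤ w ∧
        Algebra.trdeg k E = v ∧ IsVariation k d p q v ∧ (1 ≤ v → GeneralType k E v) ∧
        ∀ (κ : ℕ) (F : Fin 2 × Fin (d + 1) → MvPolynomial (Fin (M + 1)) k) (t : K),
        (∀ s, (F s).IsHomogeneous κ) → t ≠ 0 → (∀ s, cfv d p q s = t * val x (F s)) →
        ∀ (r e : ℕ) (g : Fin (r + 1) → MvPolynomial (Fin (M + 1)) k),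
        (∀ j, (g j).IsHomogeneous e) → val x (g 0) ≠ 0 →
        (∀ j, val x (g j) / val x (g 0) ∈ E) →
        ∀ (L : Type) [Field L] [Algebra ℂ L] [Algebra K L] [Algebra k L] [IsScalarTower k K L]
          [IsScalarTower k ℂ L], coords ℂ (fun i => algebraMap K L (x i)) = ⊤ →
        ∃ R : MvPolynomial (Fin (M + 1)) ℂ, Contracts (fun i => algebraMap K L (x i))
            (fun j => MvPolynomial.map (algebraMap k ℂ) (g j)) R ∧
          ∀ (D : ℕ) (ε : ℝ), 0 < ε → B D ε ≤ n → ∃ C : ℝ, ∀ T : ℝ, 1 ≤ T →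
            (imagePts k x R g D T).Finite ∧
            ((imagePts k x R g D T).ncard : ℝ) ≤ C * T ^ (κ * ε) := by
  obtain ⟨B1, B, hB⟩ := sparse_fib d hd
  obtain ⟨B2, hB2⟩ := hyp_base d hd
  refine ⟨max 3 (max B1 B2), B, ?_⟩
  intro k _ _ _ K _ _ M x hx hgen w hw n p q hn hco hmax hmany
  have c0 : 3 ≤ n := le_trans (le_max_left _ _) hn
  have c1 : B1 ≤ n := le_trans (le_trans (le_max_left _ _) (le_max_right _ _)) hn
  have c2 : B2 ≤ n := le_trans (le_trans (le_max_right _ _) (le_max_right _ _)) hn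
  have : CharZero K := charZero_of_injective_algebraMap (algebraMap k K).injective
  obtain ⟨E, v, hE, hv, htr, hvar, hgt, hlow⟩ := hB k K M x hx hgen w hw n p q c1 hco hmax hmany
  obtain ⟨E1, p', q', a, b, c, e, hE1, hmp, -⟩ := exists_fib (k := k) hd c0 hco hmax hmany
  obtain rfl := unique hE hE1
  refine ⟨E, v, hE, hv, htr, hvar, hgt, ?_⟩
  intro κ F t hF ht hFt r e g hg hg0 hgE L _ _ _ _ _ _ hgenL
  have hval : ∀ G : MvPolynomial (Fin (M + 1)) k, val (fun i => algebraMap K L (x i))
      (MvPolynomial.map (algebraMap k ℂ) G) = algebraMap K L (val x G) := by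
    intro G
    unfold val
    rw [MvPolynomial.aeval_map_algebraMap]
    exact MvPolynomial.aeval_algebraMap_apply L x G
  obtain ⟨S, hS, hSx, hSC⟩ := hlow κ F t hF ht hFt r e g hg hg0 hgE
  obtain ⟨R, hR⟩ := contracts_of_hyp (x := fun i => algebraMap K L (x i)) hgenL (E := cbase E L)
    (fun N y hy hy2 => hyp_mid hB2 E (manyPrep_mono c2 hmp) N y hy hy2)
    (c := fun j => MvPolynomial.map (algebraMap k ℂ) (g j)) (fun j => (hg j).map _)
    (by
      rw [hval]
      exact (_root_.map_ne_zero (algebraMap K L)).2 hg0) (fun j => by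
      rw [hval, hval, ← map_div₀]
      exact mem_cbase (hgE j))
  refine ⟨R * MvPolynomial.map (algebraMap k ℂ) S, hR.mul ?_ ?_, ?_⟩
  · obtain ⟨e, he⟩ := hS
    exact ⟨e, he.map _⟩
  · rw [hval]
    exact (_root_.map_ne_zero (algebraMap K L)).2 hSx
  · intro D ε hε hBD
    obtain ⟨C, hC⟩ := hSC D ε hε hBD
    refine ⟨C, fun T hT => ?_⟩
    obtain ⟨-, f2, c2⟩ := hC T hT
    have s2 := imagePts_sub k x R S g D T
    refine ⟨f2.subset s2, le_trans ?_ c2⟩
    exact_mod_cast Set.ncard_le_ncard s2 f2

end Pool.Agent.U188.MF
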