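import Pool.Agent.U188.MF.Gen
import Pool.Agent.W602.GT.Gm
import Pool.Agent.Y221.PD.Defs

/-!
# Rational maps of projective varieties given by forms
-/

set_option autoImplicit false

namespace Pool.Agent.U188.MF

open Pool.Agent.W602.GT
open Pool.Agent.Y221.PD (MeroMap)

variable {k K : Type} [Field k] [Field K] [Algebra k K] {M N : ℕ} {x : Fin (M + 1) → K}

/-- the composition of the form `P` with the forms `c` -/
noncomputable def comp (c : Fin (N + 1) → MvPolynomial (Fin (M + 1)) k)
    (P : MvPolynomial (Fin (N + 1)) k) : MvPolynomial (Fin (M + 1)) k := MvPolynomial.bind₁ c P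

theorem val_comp {F : Type} [Field F] [Algebra k F] (z : Fin (M + 1) → F)
    (c : Fin (N + 1) → MvPolynomial (Fin (M + 1)) k) (P : MvPolynomial (Fin (N + 1)) k) :
    val z (comp c P) = val (fun i => val z (c i)) P := by
  unfold val comp
  exact MvPolynomial.aeval_bind₁ z c P

theorem eval_comp (z : Fin (M + 1) → k)
    (c : Fin (N + 1) → MvPolynomial (Fin (M + 1)) k) (P : MvPolynomial (Fin (N + 1)) k) :
    MvPolynomial.eval z (comp c P) = MvPolynomial.eval (fun i => MvPolynomial.eval z (c i)) P := by
  unfold comp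
  exact MvPolynomial.eval₂Hom_bind₁ _ _ _ _

theorem comp_hom {c : Fin (N + 1) → MvPolynomial (Fin (M + 1)) k} {e : ℕ}
    (hc : ∀ i, (c i).IsHomogeneous e) {P : MvPolynomial (Fin (N + 1)) k} {m : ℕ}
    (hP : P.IsHomogeneous m) : (comp c P).IsHomogeneous (e * m) := by
  unfold comp
  exact hP.aeval c hc

variable {E : IntermediateField k K} {c : Fin (N + 1) → MvPolynomial (Fin (M + 1)) k}
  {y : Fin (N + 1) → E} {e : ℕ}

theorem Model.val_comp (h : Model x E c y e) {P : MvPolynomial (Fin (N + 1)) k} {m : ℕ}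
    (hP : P.IsHomogeneous m) : val x (comp c P) = val x (c 0) ^ m * ((val y P : E) : K) := by
  have h1 : (fun i => val x (c i)) = fun i => val x (c 0) * ((y i : E) : K) := by
    funext i
    rw [h.eq i, mul_div_cancel₀ _ h.ne]
  have h2 : ((val y P : E) : K) = val (fun i => ((y i : E) : K)) P := val_map E.val P y
  rw [MF.val_comp, h1, val_smul hP, h2]

/-- the points of the variety are mapped to points of the image -/
theorem Model.spec (h : Model x E c y e) {F : Type} [Field F] [Algebra k F] {z : Fin (M + 1) → F}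
    (hz : ∀ G : MvPolynomial (Fin (M + 1)) k, IsForm G → val x G = 0 → val z G = 0)
    {P : MvPolynomial (Fin (N + 1)) k} (hP : IsForm P) (hy : val y P = 0) :
    val (fun i => val z (c i)) P = 0 := by
  obtain ⟨m, hm⟩ := hP
  rw [← MF.val_comp]
  apply hz _ ⟨_, comp_hom h.hom hm⟩
  rw [h.val_comp hm, hy]
  simp

/-- the forms which do not vanish at the generic point of the image -/
theorem Model.ne_comp (h : Model x E c y e) {P : MvPolynomial (Fin (N + 1)) k} (hP : IsForm P)
    (hy : val y P ≠ 0) : val x (comp c P) ≠ 0 := by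
  obtain ⟨m, hm⟩ := hP
  rw [h.val_comp hm]
  refine mul_ne_zero (pow_ne_zero _ h.ne) fun h0 => hy ?_
  exact Subtype.ext h0

/-- two forms whose quotient is the coordinate `y i` -/
theorem Model.rel (h : Model x E c y e) {i : Fin (N + 1)}
    {G G0 : MvPolynomial (Fin (M + 1)) k} (h0 : val x G0 ≠ 0)
    (hi : (y i : K) = val x G / val x G0) :
    val x (G * c 0 - c i * G0) = 0 := by
  have h1 := h.eq i
  rw [hi, div_eq_div_iff h0 h.ne] at h1
  rw [val_sub, val_mul, val_mul, h1, sub_self]

/-- an entire function on a complex vector space is determined by its values where another entire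
function does not vanish -/
theorem entire_zero {n : ℕ} {u v : (Fin n → ℂ) → ℂ} (hu : Differentiable ℂ u)
    (hv : Differentiable ℂ v) {p : Fin n → ℂ} (hp : v p ≠ 0) (h : ∀ t, u t * v t = 0) (t : Fin n → ℂ) :
    u t = 0 := by
  let ℓ : ℂ → Fin n → ℂ := fun s => p + s • (t - p)
  have hℓ : Differentiable ℂ ℓ := by
    simp only [ℓ]
    fun_prop
  have h0 : ℓ 0 = p := by simp [ℓ]
  have h1 : ℓ 1 = t := by simp [ℓ]
  have hu' : AnalyticOnNhd ℂ (fun s => u (ℓ s)) Set.univ :=
    (hu.comp hℓ).differentiableOn.analyticOnNhd isOpen_univ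
  have hev : ∀ᶠ s in nhds (0 : ℂ), u (ℓ s) = 0 := by
    have h2 : ∀ᶠ s in nhds (0 : ℂ), v (ℓ s) ≠ 0 := by
      have h3 : ContinuousAt (fun s => v (ℓ s)) 0 := (hv.comp hℓ).continuous.continuousAt
      refine h3.eventually_ne ?_
      rw [h0]
      exact hp
    filter_upwards [h2] with s hs
    exact (mul_eq_zero.1 (h (ℓ s))).resolve_right hs
  have h4 := hu'.eqOn_zero_of_preconnected_of_eventuallyEq_zero isPreconnected_univ
    (Set.mem_univ 0) hev (Set.mem_univ 1)
  have h5 : u (ℓ 1) = 0 := h4
  rwa [h1] at h5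

/-- **Meromorphic maps to the variety.** Let `R'` be a form such that the zero set of `R'` contains the
nonconstant meromorphic images of the spaces `ℂ ^ n` in the image of the rational map `c`. Let `G` and
`G0` be forms whose quotient is the coordinate `y i`. Then `G / G0` is constant along all meromorphic
maps to the variety whose image is not contained in the zero set of the form `R' (c) c₀ G0`. -/
theorem mero_const {K : Type} [Field K] [Algebra ℂ K] {x : Fin (M + 1) → K}
    {E : IntermediateField ℂ K} {c : Fin (N + 1) → MvPolynomial (Fin (M + 1)) ℂ}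
    {y : Fin (N + 1) → E} {e : ℕ} (h : Model x E c y e) {R' : MvPolynomial (Fin (N + 1)) ℂ}
    (hmero : ∀ g f, MeroMap y g f → ∀ t, MvPolynomial.eval (fun i => f i t) R' = 0)
    {i : Fin (N + 1)} {G G0 : MvPolynomial (Fin (M + 1)) ℂ} {d : ℕ} (hG : G.IsHomogeneous d)
    (hG0 : G0.IsHomogeneous d) (h0 : val x G0 ≠ 0) (hi : (y i : K) = val x G / val x G0)
    {g : ℕ} {f : Fin (M + 1) → (Fin g → ℂ) → ℂ} (hol : ∀ i, Differentiable ℂ (f i))
    (mem : ∀ P : MvPolynomial (Fin (M + 1)) ℂ, IsForm P → val x P = 0 →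
      ∀ t, MvPolynomial.eval (fun i => f i t) P = 0)
    {t0 : Fin g → ℂ} (ht0 : MvPolynomial.eval (fun i => f i t0) (comp c R' * c 0 * G0) ≠ 0) :
    ∃ a : ℂ, ∀ t, MvPolynomial.eval (fun i => f i t) G = a * MvPolynomial.eval (fun i => f i t) G0 := by
  have hpol : ∀ P : MvPolynomial (Fin (M + 1)) ℂ, Differentiable ℂ
      (fun t => MvPolynomial.eval (fun i => f i t) P) := by
    intro P
    induction P using MvPolynomial.induction_on with
    | C a => simp
    | add p q hp hq =>
      simp only [map_add]
      exact hp.add hq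
    | mul_X p i hp =>
      simp only [map_mul, MvPolynomial.eval_X]
      exact hp.mul (hol i)
  rw [map_mul, map_mul, eval_comp] at ht0
  have hR0 := left_ne_zero_of_mul (left_ne_zero_of_mul ht0)
  have hc0 := right_ne_zero_of_mul (left_ne_zero_of_mul ht0)
  have hg0 := right_ne_zero_of_mul ht0
  have hconst : ∀ i j a b, MvPolynomial.eval (fun l => f l a) (c i) *
      MvPolynomial.eval (fun l => f l b) (c j) =
      MvPolynomial.eval (fun l => f l a) (c j) * MvPolynomial.eval (fun l => f l b) (c i) := by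
    by_contra hcon
    push Not at hcon
    obtain ⟨i, j, a, b, hab⟩ := hcon
    refine hR0 (hmero g (fun i t => MvPolynomial.eval (fun l => f l t) (c i))
      ⟨fun i => hpol (c i), fun P hP hy t => ?_, i, j, a, b, hab⟩ t0)
    obtain ⟨m, hm⟩ := hP
    rw [← eval_comp]
    apply mem _ ⟨_, comp_hom h.hom hm⟩
    rw [h.val_comp hm, hy]
    simp
  set a : ℂ := MvPolynomial.eval (fun l => f l t0) (c i) /
    MvPolynomial.eval (fun l => f l t0) (c 0) with ha
  have hci : ∀ t, MvPolynomial.eval (fun l => f l t) (c i) =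
      a * MvPolynomial.eval (fun l => f l t) (c 0) := by
    intro t
    have h1 := hconst i 0 t t0
    rw [ha, div_mul_eq_mul_div, eq_div_iff hc0, h1]
    ring
  refine ⟨a, fun t => ?_⟩
  have hrel := h.rel h0 hi
  have hform : IsForm (G * c 0 - c i * G0) := by
    refine ⟨d + e, (hG.mul (h.hom 0)).sub ?_⟩
    have h1 := (h.hom i).mul hG0
    rwa [add_comm e d] at h1
  have h2 : ∀ t, (MvPolynomial.eval (fun i => f i t) G -
      a * MvPolynomial.eval (fun i => f i t) G0) * MvPolynomial.eval (fun i => f i t) (c 0) = 0 := by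
    intro t
    have h3 := mem _ hform hrel t
    rw [map_sub, map_mul, map_mul, hci t] at h3
    linear_combination h3
  have h4 := entire_zero ((hpol G).sub ((hpol G0).const_mul a)) (hpol (c 0)) hc0 h2 t
  exact sub_eq_zero.1 h4

end Pool.Agent.U188.MF
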