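import Pool.Agent.U188.MF.Pull
import Pool.Agent.TH466.QG.Strong
import Pool.Agent.Y216.SV.Bog
import Pool.Agent.W602.GT.BroDefs

/-!
# Special subvarieties and Zariski dense entire curves
-/

set_option autoImplicit false

namespace Pool.Agent.U188.MF

open Pool.Agent.W602.GT
open Pool.Agent.TH466.QG (SubOf)
open Pool.Agent.Y221.PD (MeroMap)

section

variable {k K : Type} [Field k] [Field K] [Algebra k K] {M N : ℕ} {x : Fin (M + 1) → K}
  {E : IntermediateField k K} {c : Fin (N + 1) → MvPolynomial (Fin (M + 1)) k}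
  {y : Fin (N + 1) → E} {e : ℕ}

/-- the image of a closed subvariety under a rational map -/
theorem image_sub (h : Model x E c y e) {F : Type} [Field F] [Algebra k F] {z : Fin (M + 1) → F}
    (hz : SubOf k x z) (h0 : val z (c 0) ≠ 0) :
    ∃ z' : Fin (N + 1) → coords k (fun i => val z (c i)), SubOf k y z' ∧
      ∀ P : MvPolynomial (Fin (N + 1)) k, IsForm P → val z (comp c P) ≠ 0 → val z' P ≠ 0 := by
  obtain ⟨z', h1, h2, h3, h4⟩ := repr
    (F := fun G : {G : MvPolynomial (Fin (N + 1)) k // IsForm G ∧ val y G = 0} => G.1)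
    (fun G => G.2.1) (fun i => val z (c i)) (j0 := 0) h0
    (fun G => h.spec hz.spec G.2.1 G.2.2)
  refine ⟨z', ⟨?_, h3, fun G hG hy => h2 ⟨G, hG, hy⟩⟩, fun P hP hne h0' => hne ?_⟩
  · intro h0'
    rw [h0'] at h1
    exact zero_ne_one h1
  · rw [val_comp]
    exact h4 P hP h0'

end

section

variable {K : Type} [Field K] [Algebra ℂ K] {M N : ℕ} {x : Fin (M + 1) → K}
  {E : IntermediateField ℂ K} {c : Fin (N + 1) → MvPolynomial (Fin (M + 1)) ℂ}
  {y : Fin (N + 1) → E} {e : ℕ}

/-- the ratios of the elements of a field of transcendence degree `0` are constants -/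
theorem const_of_trdeg {F : Type} [Field F] [Algebra ℂ F] {F' : IntermediateField ℂ F}
    (h : Algebra.trdeg ℂ F' = (0 : ℕ)) {a : F} (ha : a ∈ F') : ∃ b : ℂ, a = algebraMap ℂ F b := by
  have h1 : Algebra.IsAlgebraic ℂ F' := by
    rw [← trdeg_eq_zero_iff]
    exact_mod_cast h
  have h2 : IsAlgebraic ℂ (⟨a, ha⟩ : F') := h1.isAlgebraic _
  have h3 : IsAlgebraic ℂ a := (isAlgebraic_algebraMap_iff (algebraMap F' F).injective).2 h2
  obtain ⟨b, hb⟩ := IsAlgClosed.algebraMap_bijective_of_isIntegral (k := ℂ) (K := F') |>.2 ⟨a, ha⟩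
  exact ⟨b, congrArg Subtype.val hb.symm⟩

/-- **Special subvarieties.** Let the closed subvarieties of the image which are not contained in the
zero set of `R'` be of general type. Then the special closed subvarieties of the variety which are not
contained in the zero set of `R' (c) c₀` are mapped to points. -/
theorem sub_special (h : Model x E c y e) {R' : MvPolynomial (Fin (N + 1)) ℂ} (hR' : IsForm R')
    (hsub : ∀ (F' : Type) [Field F'] [Algebra ℂ F'] (w : ℕ) (z : Fin (N + 1) → F'), SubOf ℂ y z →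
      val z R' ≠ 0 → 1 ≤ w → Algebra.trdeg ℂ F' = w → GeneralType ℂ F' w)
    {F : Type} [Field F] [Algebra ℂ F] {w' : ℕ} {z : Fin (M + 1) → F} (hz : SubOf ℂ x z)
    (htr : Algebra.trdeg ℂ F = w') (hne : val z (comp c R') ≠ 0) (h0 : val z (c 0) ≠ 0)
    (hS : Special ℂ F w' (fun _ => False)) (i : Fin (N + 1)) :
    ∃ a : ℂ, val z (c i) = algebraMap ℂ F a * val z (c 0) := by
  obtain ⟨z', hz', hP⟩ := image_sub h hz h0
  obtain ⟨u, hu⟩ : ∃ u : ℕ, Algebra.trdeg ℂ (coords ℂ (fun i => val z (c i))) = u := by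
    have h1 : Algebra.trdeg ℂ (coords ℂ (fun i => val z (c i))) ≤ Algebra.trdeg ℂ F :=
      trdeg_le_of_injective (coords ℂ (fun i => val z (c i))).val
        (coords ℂ (fun i => val z (c i))).val.injective
    rw [htr] at h1
    exact Cardinal.lt_aleph0.1 (h1.trans_lt (Cardinal.natCast_lt_aleph0))
  have hu0 : u = 0 := by
    by_contra hcon
    have h1 : GeneralType ℂ (coords ℂ (fun i => val z (c i))) u :=
      hsub _ u z' hz' (hP R' hR' hne) (Nat.one_le_iff_ne_zero.2 hcon) hu
    have hgen := hz'.gen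
    unfold coords at hgen
    refine hS u (Nat.one_le_iff_ne_zero.2 hcon)
      (Pool.Agent.Y216.SV.bog_of_sub (coords ℂ (fun i => val z (c i))) htr
        (S := {s | ∃ i j, z' j ≠ 0 ∧ s = z' i / z' j}) ?_ hgen h1 _)
    refine Set.Finite.subset (Set.finite_range fun ij : Fin (N + 1) × Fin (N + 1) =>
      z' ij.1 / z' ij.2) ?_
    rintro _ ⟨i, j, -, rfl⟩
    exact ⟨(i, j), rfl⟩
  subst hu0
  obtain ⟨b, hb⟩ := const_of_trdeg hu (a := val z (c i) / val z (c 0))
    (IntermediateField.subset_adjoin ℂ _ ⟨i, 0, h0, rfl⟩)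
  exact ⟨b, by rw [← hb, div_mul_cancel₀ _ h0]⟩

/-- the same for a quotient of two other forms -/
theorem sub_const (h : Model x E c y e) {F : Type} [Field F] [Algebra ℂ F] {z : Fin (M + 1) → F}
    (hz : SubOf ℂ x z) (h0 : val z (c 0) ≠ 0) {i : Fin (N + 1)} {a : ℂ}
    (hi : val z (c i) = algebraMap ℂ F a * val z (c 0)) {G G0 : MvPolynomial (Fin (M + 1)) ℂ} {d : ℕ}
    (hG : G.IsHomogeneous d) (hG0 : G0.IsHomogeneous d) (hx0 : val x G0 ≠ 0)
    (hy : (y i : K) = val x G / val x G0) : val z G = algebraMap ℂ F a * val z G0 := by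
  have hform : IsForm (G * c 0 - c i * G0) := by
    refine ⟨d + e, (hG.mul (h.hom 0)).sub ?_⟩
    have h1 := (h.hom i).mul hG0
    rwa [add_comm e d] at h1
  have h1 := hz.spec _ hform (h.rel hx0 hy)
  rw [val_sub, val_mul, val_mul, hi] at h1
  apply mul_right_cancel₀ h0
  linear_combination h1

/-- a variety is a closed subvariety of itself -/
theorem subOf_self (hx : x ≠ 0) (hgen : coords ℂ x = ⊤) : SubOf ℂ x x :=
  ⟨hx, hgen, fun _ _ h => h⟩

/-- constant coordinates: the field of constants -/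
theorem bot_of_const {y : Fin (N + 1) → E} (hgen : coords ℂ y = ⊤)
    (h : ∀ i, ∃ a : ℂ, (y i : K) = algebraMap ℂ K a) : ∀ s ∈ E, ∃ a : ℂ, s = algebraMap ℂ K a := by
  intro s hs
  have h1 : (⟨s, hs⟩ : E) ∈ coords ℂ y := by
    rw [hgen]
    exact IntermediateField.mem_top
  have h2 : coords ℂ y ≤ ⊥ := by
    unfold coords
    rw [IntermediateField.adjoin_le_iff]
    rintro _ ⟨i, j, -, rfl⟩
    obtain ⟨a, ha⟩ := h i
    obtain ⟨b, hb⟩ := h j
    rw [SetLike.mem_coe, IntermediateField.mem_bot]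
    refine ⟨a / b, ?_⟩
    apply Subtype.ext
    rw [map_div₀]
    change (algebraMap ℂ K a) / (algebraMap ℂ K b) = (y i : K) / (y j : K)
    rw [ha, hb]
  obtain ⟨a, ha⟩ := IntermediateField.mem_bot.1 (h2 h1)
  exact ⟨a, (congrArg Subtype.val ha).symm⟩

end

end Pool.Agent.U188.MF
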