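import Pool.Agent.U188.MF.Fib

/-!
# The symmetric differentials and the moduli fibration
-/

set_option autoImplicit false

namespace Pool.Agent.U188.MF

open Polynomial FF
open Pool.Agent.W602.GT
open Pool.Agent.Q103.EC (ManyPrep prePer Isotrivial)
open Pool.Agent.Q103.VR

/-- `ω` is a holomorphic symmetric differential of degree `m` on the smooth projective varieties with
the function field `K`: a symmetric `K`-multilinear function of `m` rational vector fields, whose values
on the vector fields which are regular at a place of `K` (a discrete valuation over `ℂ`) are regular at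
this place. -/
structure HolSym {K : Type} [Field K] [Algebra ℂ K] {m : ℕ}
    (ω : MultilinearMap K (fun _ : Fin m => Derivation ℂ K K) K) : Prop where
  symm : ∀ (σ : Equiv.Perm (Fin m)) (D : Fin m → Derivation ℂ K K), ω (fun i => D (σ i)) = ω D
  reg : ∀ (v : Place ℂ K) (D : Fin m → Derivation ℂ K K), (∀ j, DerReg v (D j)) → v.Reg (ω D)

/-- **The symmetric differentials detect the moduli fibration.** -/
theorem sym (d : ℕ) (hd : 2 ≤ d) : ∃ B : ℕ, ∀ (K : Type) [Field K] [Algebra ℂ K] (w : ℕ),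
    Algebra.trdeg ℂ K = w → ∀ p q : K[X], IsCoprime p q → max p.natDegree q.natDegree = d →
    (B : ℕ∞) ≤ (prePer d p q).encard →
    ∃ (E : IntermediateField ℂ K) (v : ℕ), ModuliFibration d p q E ∧ v ≤ w ∧
      Algebra.trdeg ℂ E = v ∧ IsVariation ℂ d p q v ∧ (1 ≤ v → GeneralType ℂ E v) ∧
      (∀ D : Derivation ℂ K K, (∀ (m : ℕ) (ω : MultilinearMap K
        (fun _ : Fin m => Derivation ℂ K K) K), 1 ≤ m → HolSym ω → ω (fun _ => D) = 0) →
          ∀ y ∈ E, D y = 0) ∧
      ((∀ (m : ℕ) (ω : MultilinearMap K (fun _ : Fin m => Derivation ℂ K K) K), 1 ≤ m →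
        HolSym ω → ω = 0) → v = 0 ∧ Isotrivial ℂ d p q) := by
  obtain ⟨B1, hB1⟩ := kernel d hd
  obtain ⟨B2, hB2⟩ := fibration d hd
  refine ⟨max B1 B2, ?_⟩
  intro K _ _ w hw p q hco hmax hmany
  have : CharZero K := charZero_of_injective_algebraMap (algebraMap ℂ K).injective
  obtain ⟨E, v, hE, hv, htr, hvar, hgt, -⟩ := hB2 ℂ K p q hco hmax
    (le_trans (by exact_mod_cast le_max_right B1 B2) hmany) w hw
  obtain ⟨E1, hE1, hker⟩ := hB1 ℂ K p q hco hmax
    (le_trans (by exact_mod_cast le_max_left B1 B2) hmany) w hw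
  obtain rfl := unique hE hE1
  have hzero : ∀ D : Derivation ℂ K K, (∀ (m : ℕ) (ω : MultilinearMap K
      (fun _ : Fin m => Derivation ℂ K K) K), 1 ≤ m → HolSym ω → ω (fun _ => D) = 0) →
      ∀ y ∈ E, D y = 0 := by
    intro D hD y hy
    by_contra hne
    obtain ⟨m, hm, ω, h1, h2, h3⟩ := hker D ⟨y, hy, hne⟩
    exact h3 (hD m ω hm ⟨h1, h2⟩)
  refine ⟨E, v, hE, hv, htr, hvar, hgt, hzero, fun h => ?_⟩
  have halg : ∀ y ∈ E, IsAlgebraic ℂ y := fun y hy => alg_of_der_zero fun D =>
    hzero D (fun m ω hm hω => by rw [h m ω hm hω]; rfl) y hy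
  refine ⟨?_, hE.isotrivial.2 halg⟩
  have h1 : Algebra.IsAlgebraic ℂ E := ⟨fun y => (isAlgebraic_algebraMap_iff
    (algebraMap E K).injective).1 (halg y y.2)⟩
  rw [trdeg_eq_zero] at htr
  exact_mod_cast htr.symm

end Pool.Agent.U188.MF
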